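import Pool.Agent.PDX.Stmts

/-!
# PDX, row INV: the number of triples and the sum of their values do not depend on the instance
-/

set_option autoImplicit false

open scoped BigOperators

namespace Pool.Agent.PDX.H17

open Pool.Agent.PDN Pool.Agent.PDM Pool.Agent.PDX

theorem c23_inj (M : ℕ) (p p' : Pos M) (h2 : c2 M p = c2 M p') (h3 : c3 M p = c3 M p') :
    p = p' := by
  obtain ⟨i, a⟩ := p
  obtain ⟨j, b⟩ := p'
  have hi := i.isLt
  have hj := j.isLt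
  have key : (i : ℕ) = (j : ℕ) ∧ a = b := by
    fin_cases a <;> fin_cases b <;> simp [c2, c3] at h2 h3 ⊢ <;> omega
  obtain ⟨h4, h5⟩ := key
  rw [h5, Fin.ext h4]

theorem trp_inj (M : ℕ) (x y : Finset (Fin M)) : Function.Injective (trp M x y) := by
  intro p p' h
  have h2 : c2 M p = c2 M p' := congrArg (fun q => (q.2.1 : ℕ)) h
  have h3 : c3 M p = c3 M p' := congrArg (fun q => (q.2.2 : ℕ)) h
  exact c23_inj M p p' h2 h3

/-- the value of an element of the first kind -/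
def w (M m : ℕ) : ℕ := 8 * (off (4 * M + 1) + (bs (4 * M + 1) ^ (2 * ((0 : Fin 3) : ℕ)) * (m + 1) +
  bs (4 * M + 1) ^ (2 * ((0 : Fin 3) : ℕ) + 1) * (m + 1) ^ 2))

theorem vC_trp (M : ℕ) (x y : Finset (Fin M)) (p : Pos M) :
    vC (trp M x y p) = w M (c1 M x y p) + (vA 1 (trp M x y p).2.1 + vA 2 (trp M x y p).2.2) := by
  unfold vC
  rw [add_assoc]
  rfl

theorem sum_c1 (M : ℕ) (x y : Finset (Fin M)) (i : Fin M) :
    ∑ a : Fin 7, w M (c1 M x y (i, a)) = ∑ a : Fin 7, w M (c1 M ∅ ∅ (i, a)) := by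
  rw [Fin.sum_univ_seven, Fin.sum_univ_seven]
  have h0 : c1 M x y (i, 0) = if i ∈ x then 4 * (i : ℕ) else 4 * (i : ℕ) + 1 := rfl
  have h1 : c1 M x y (i, 1) = if i ∈ x then 4 * (i : ℕ) + 1 else 4 * (i : ℕ) := rfl
  have h2 : c1 M x y (i, 2) = if i ∈ y then 4 * (i : ℕ) + 2 else 4 * (i : ℕ) + 3 := rfl
  have h3 : c1 M x y (i, 3) = if i ∈ y then 4 * (i : ℕ) + 3 else 4 * (i : ℕ) + 2 := rfl
  have h4 : c1 M x y (i, 4) = 4 * M := rfl
  have h5 : c1 M x y (i, 5) = 4 * (i : ℕ) + 1 := rfl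
  have h6 : c1 M x y (i, 6) = 4 * (i : ℕ) + 3 := rfl
  have g0 : c1 M ∅ ∅ (i, 0) = 4 * (i : ℕ) + 1 := rfl
  have g1 : c1 M ∅ ∅ (i, 1) = 4 * (i : ℕ) := rfl
  have g2 : c1 M ∅ ∅ (i, 2) = 4 * (i : ℕ) + 3 := rfl
  have g3 : c1 M ∅ ∅ (i, 3) = 4 * (i : ℕ) + 2 := rfl
  have g4 : c1 M ∅ ∅ (i, 4) = 4 * M := rfl
  have g5 : c1 M ∅ ∅ (i, 5) = 4 * (i : ℕ) + 1 := rfl
  have g6 : c1 M ∅ ∅ (i, 6) = 4 * (i : ℕ) + 3 := rfl
  rw [h0, h1, h2, h3, h4, h5, h6, g0, g1, g2, g3, g4, g5, g6]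
  by_cases hx : i ∈ x <;> by_cases hy : i ∈ y <;> simp only [hx, hy, if_true, if_false] <;> omega

theorem sC_inst (M : ℕ) (x y : Finset (Fin M)) :
    sC (inst M x y) = ∑ p : Pos M, w M (c1 M x y p) +
      ∑ p : Pos M, (vA 1 (trp M ∅ ∅ p).2.1 + vA 2 (trp M ∅ ∅ p).2.2) := by
  unfold sC inst
  rw [Finset.sum_image (fun a _ b _ h => trp_inj M x y h), ← Finset.sum_add_distrib]
  exact Finset.sum_congr rfl fun p _ => vC_trp M x y p

/-- INV. -/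
theorem inv : InvStmt := by
  intro M x y
  refine ⟨trp_inj M x y, ?_, ?_⟩
  · unfold ins0 inst
    rw [Finset.card_image_of_injective _ (trp_inj M x y),
      Finset.card_image_of_injective _ (trp_inj M ∅ ∅)]
  · unfold ins0
    have h : ∑ p : Pos M, w M (c1 M x y p) = ∑ p : Pos M, w M (c1 M ∅ ∅ p) := by
      rw [Fintype.sum_prod_type, Fintype.sum_prod_type (fun p : Pos M => w M (c1 M ∅ ∅ p))]
      exact Finset.sum_congr rfl fun i _ => sum_c1 M x y i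
    rw [sC_inst, sC_inst, h]

end Pool.Agent.PDX.H17
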